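import Pool.Agent.X208.MX.Rep

/-! One more coordinate, all twists but few. -/

set_option autoImplicit false

namespace Pool.Agent.X208.MX

open Filter Topology MeasureTheory
open scoped UpperHalfPlane MatrixGroups ComplexConjugate
open Pool.Agent.X208.CM

theorem mean_const {A : Type} [Fintype A] [Nonempty A] (c : ℂ) : (mean fun _ : A => c) = c := by
  unfold mean
  have h0 : (Fintype.card A : ℂ) ≠ 0 := by exact_mod_cast Fintype.card_ne_zero
  rw [Finset.sum_const, Finset.card_univ, nsmul_eq_mul, mul_div_cancel_left₀ _ h0]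

theorem mean_hom {A G : Type} [Group A] [Fintype A] [CommGroup G] [Fintype G] (π : A →* G)
    (hπ : Function.Surjective π) (h : G → ℂ) : (mean fun a => h (π a)) = mean h := by
  have h1 : ∀ x, (mean fun a => h (π a * x)) = mean fun a => h (π a) := by
    intro x
    obtain ⟨a0, rfl⟩ := hπ x
    unfold mean
    congr 1
    exact Fintype.sum_equiv (Equiv.mulRight a0) _ _ fun a => by
      simp only [Equiv.coe_mulRight, map_mul]
  have h2 : ∀ a, (mean fun x : G => h (π a * x)) = mean h := by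
    intro a
    unfold mean
    congr 1
    exact Fintype.sum_equiv (Equiv.mulLeft (π a)) _ _ fun x => rfl
  have h3 : (mean fun x : G => mean fun a : A => h (π a * x)) =
      mean fun a : A => mean fun x : G => h (π a * x) := by
    unfold mean
    rw [← Finset.sum_div, ← Finset.sum_div, Finset.sum_comm, div_div, div_div, mul_comm]
  simp only [h1, h2] at h3
  rwa [mean_const, mean_const] at h3

theorem vdc_hom {A G : Type} [Group A] [Fintype A] [CommGroup G] [Fintype G] (π : A →* G)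
    (hπ : Function.Surjective π) (F : A → ℂ) (g : G → ℂ) (hF : ∀ a, ‖F a‖ ≤ 1)
    (S : Finset G) : (∑ σ ∈ S, ‖mean fun a => F a * g (π a * σ)‖) ^ 2 ≤
      ∑ σ ∈ S, ∑ σ' ∈ S, ‖mean fun a => g a * conj (g (a * (σ⁻¹ * σ')))‖ := by
  classical
  have hN : (0 : ℝ) < Fintype.card A := by exact_mod_cast Fintype.card_pos
  set m : G → ℂ := fun σ => mean fun a => F a * g (π a * σ) with hm
  have hc : ∀ σ, ∃ c : ℂ, ‖c‖ ≤ 1 ∧ c * m σ = ‖m σ‖ := by
    intro σ
    by_cases h : m σ = 0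
    · exact ⟨0, by simp, by simp [h]⟩
    · have h0 : (‖m σ‖ : ℂ) ≠ 0 := by exact_mod_cast norm_ne_zero_iff.2 h
      refine ⟨conj (m σ) / ‖m σ‖, ?_, ?_⟩
      · rw [norm_div, Complex.norm_conj, Complex.norm_real, norm_norm]
        exact (div_self (norm_ne_zero_iff.2 h)).le
      · rw [div_mul_eq_mul_div, Complex.conj_mul', sq, mul_div_assoc, div_self h0, mul_one]
  choose c hc1 hcm using hc
  set u : A → ℂ := fun a => ∑ σ ∈ S, c σ * g (π a * σ) with hu
  -- the first step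
  have h1 : ((∑ σ ∈ S, ‖m σ‖ : ℝ) : ℂ) = (∑ a, F a * u a) / Fintype.card A := by
    push_cast
    rw [Finset.sum_congr rfl fun σ _ => (hcm σ).symm]
    simp only [hm, mean, hu, Finset.mul_sum]
    rw [Finset.sum_comm, Finset.sum_div]
    refine Finset.sum_congr rfl fun σ _ => ?_
    rw [mul_div_assoc', Finset.mul_sum]
    congr 1
    refine Finset.sum_congr rfl fun a _ => ?_
    ring
  have h2 : ∑ σ ∈ S, ‖m σ‖ ≤ (∑ a, ‖u a‖) / Fintype.card A := by
    have h3 := congrArg norm h1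
    rw [Complex.norm_real, Real.norm_of_nonneg (Finset.sum_nonneg fun _ _ => norm_nonneg _),
      norm_div, Complex.norm_natCast] at h3
    rw [h3]
    refine div_le_div_of_nonneg_right ((norm_sum_le _ _).trans (Finset.sum_le_sum fun a _ => ?_))
      hN.le
    rw [norm_mul]
    exact mul_le_of_le_one_left (norm_nonneg _) (hF a)
  have h3 : (∑ σ ∈ S, ‖m σ‖) ^ 2 ≤ (∑ a, ‖u a‖ ^ 2) / Fintype.card A := by
    refine (pow_le_pow_left₀ (Finset.sum_nonneg fun _ _ => norm_nonneg _) h2 2).trans ?_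
    rw [div_pow, div_le_div_iff₀ (by positivity) hN]
    have h4 := sq_sum_le_card_mul_sum_sq (s := (Finset.univ : Finset A)) (f := fun a => ‖u a‖)
    rw [Finset.card_univ] at h4
    calc (∑ a, ‖u a‖) ^ 2 * Fintype.card A ≤
        (Fintype.card A * ∑ a, ‖u a‖ ^ 2) * Fintype.card A :=
          mul_le_mul_of_nonneg_right h4 hN.le
      _ = _ := by ring
  refine h3.trans ?_
  -- the second step
  have h4 : (((∑ a, ‖u a‖ ^ 2) / Fintype.card A : ℝ) : ℂ) = ∑ σ ∈ S, ∑ σ' ∈ S,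
      (c σ * conj (c σ')) * mean fun a => g (π a * σ) * conj (g (π a * σ')) := by
    have e : ∀ σ σ' : G, (c σ * conj (c σ')) *
        (mean fun a => g (π a * σ) * conj (g (π a * σ'))) =
        (∑ a, (c σ * g (π a * σ)) * conj (c σ' * g (π a * σ'))) / Fintype.card A := by
      intro σ σ'
      unfold mean
      rw [mul_div_assoc', Finset.mul_sum]
      congr 1
      refine Finset.sum_congr rfl fun a _ => ?_
      rw [map_mul]
      ring
    rw [Finset.sum_congr rfl fun σ _ => Finset.sum_congr rfl fun σ' _ => e σ σ']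
    simp only [← Finset.sum_div]
    push_cast
    congr 1
    have e2 : ∀ a, ((‖u a‖ : ℂ)) ^ 2 = ∑ σ ∈ S, ∑ σ' ∈ S,
        (c σ * g (π a * σ)) * conj (c σ' * g (π a * σ')) := by
      intro a
      rw [← Complex.mul_conj']
      simp only [hu]
      rw [map_sum, Finset.sum_mul_sum]
    rw [Finset.sum_congr rfl fun a _ => e2 a, Finset.sum_comm]
    refine Finset.sum_congr rfl fun σ _ => ?_
    rw [Finset.sum_comm]
  have h5 := congrArg norm h4
  rw [Complex.norm_real, Real.norm_of_nonneg (by positivity)] at h5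
  rw [h5]
  refine (norm_sum_le _ _).trans (Finset.sum_le_sum fun σ _ => (norm_sum_le _ _).trans
    (Finset.sum_le_sum fun σ' _ => ?_))
  have h6 := mean_shift (fun a => g a * conj (g (a * (σ⁻¹ * σ')))) σ
  have h7 := mean_hom π hπ (fun x => g (x * σ) * conj (g (x * σ')))
  rw [h7, ← h6]
  simp only [mul_assoc, mul_inv_cancel_left]
  rw [← mul_assoc, norm_mul, norm_mul, Complex.norm_conj]
  exact mul_le_of_le_one_left (norm_nonneg _)
    (mul_le_one₀ (hc1 σ) (norm_nonneg _) (hc1 σ'))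

/-- counting the exceptional twists -/
theorem count_hom {A G : Type} [Group A] [Fintype A] [CommGroup G] [Fintype G] (π : A →* G)
    (hπ : Function.Surjective π) (F : A → ℂ) (g : G → ℂ) (hF : ∀ a, ‖F a‖ ≤ 1)
    {K : ℝ} (hg : ∀ a, ‖g a‖ ≤ K) (S : Finset G) (Q : G → Prop) [DecidablePred Q] {η : ℝ}
    (hη : 0 < η) {c : ℕ} (hQ : (Finset.univ.filter Q).card ≤ c)
    (hS : ∀ σ ∈ S, η < ‖mean fun a => F a * g (π a * σ)‖)
    (hA : ∀ σ ∈ S, ∀ σ' ∈ S, ¬ Q (σ⁻¹ * σ') →
      ‖mean fun a => g a * conj (g (a * (σ⁻¹ * σ')))‖ ≤ η ^ 2 / 2) :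
    (S.card : ℝ) ≤ 2 * K ^ 2 * c / η ^ 2 := by
  classical
  have hK : 0 ≤ K := (norm_nonneg _).trans (hg 1)
  have h1 := vdc_hom π hπ F g hF S
  have h2 : (S.card : ℝ) * η ≤ ∑ σ ∈ S, ‖mean fun a => F a * g (π a * σ)‖ := by
    rw [← nsmul_eq_mul, ← Finset.sum_const]
    exact Finset.sum_le_sum fun σ hσ => (hS σ hσ).le
  have h3 : ∑ σ ∈ S, ∑ σ' ∈ S, ‖mean fun a => g a * conj (g (a * (σ⁻¹ * σ')))‖ ≤
      ∑ σ ∈ S, ((S.card : ℝ) * (η ^ 2 / 2) + c * K ^ 2) := by
    refine Finset.sum_le_sum fun σ hσ => ?_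
    have h4 : ∀ σ' ∈ S, ‖mean fun a => g a * conj (g (a * (σ⁻¹ * σ')))‖ ≤
        η ^ 2 / 2 + if Q (σ⁻¹ * σ') then K ^ 2 else 0 := by
      intro σ' hσ'
      split_ifs with hq
      · have h5 : ‖mean fun a => g a * conj (g (a * (σ⁻¹ * σ')))‖ ≤ K ^ 2 := by
          refine mean_le (by positivity) fun a => ?_
          rw [norm_mul, Complex.norm_conj, sq]
          exact mul_le_mul (hg _) (hg _) (norm_nonneg _) hK
        have : 0 ≤ η ^ 2 / 2 := by positivity
        linarith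
      · rw [add_zero]
        exact hA σ hσ σ' hσ' hq
    refine (Finset.sum_le_sum h4).trans ?_
    rw [Finset.sum_add_distrib, Finset.sum_const, nsmul_eq_mul, ← Finset.sum_filter,
      Finset.sum_const, nsmul_eq_mul]
    have h6 : ((S.filter fun σ' => Q (σ⁻¹ * σ')).card : ℝ) ≤ c := by
      have h7 : (S.filter fun σ' => Q (σ⁻¹ * σ')).card ≤ (Finset.univ.filter Q).card := by
        refine Finset.card_le_card_of_injOn (fun σ' => σ⁻¹ * σ') (fun σ' h => ?_)
          fun a _ b _ hab => mul_left_cancel hab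
        have h8 := (Finset.mem_filter.1 (Finset.mem_coe.1 h)).2
        exact Finset.mem_coe.2 (Finset.mem_filter.2 ⟨Finset.mem_univ _, h8⟩)
      exact_mod_cast h7.trans hQ
    have := mul_le_mul_of_nonneg_right h6 (by positivity : (0 : ℝ) ≤ K ^ 2)
    linarith
  rw [Finset.sum_const, nsmul_eq_mul] at h3
  have h4 : ((S.card : ℝ) * η) ^ 2 ≤ S.card * ((S.card : ℝ) * (η ^ 2 / 2) + c * K ^ 2) :=
    (pow_le_pow_left₀ (by positivity) h2 2).trans (h1.trans h3)
  rcases Nat.eq_zero_or_pos S.card with h0 | h0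
  · rw [h0, Nat.cast_zero]
    positivity
  · have h0' : (0 : ℝ) < S.card := by exact_mod_cast h0
    have h5 : (S.card : ℝ) * (S.card * η ^ 2) ≤ S.card * ((S.card : ℝ) * (η ^ 2 / 2) + c * K ^ 2) := by
      calc _ = ((S.card : ℝ) * η) ^ 2 := by ring
        _ ≤ _ := h4
    have h6 := le_of_mul_le_mul_left h5 h0'
    rw [le_div_iff₀ (by positivity)]
    nlinarith

section
variable {R : ℕ → Type} [∀ i, CommRing (R i)] [∀ i, IsDomain (R i)]
  [∀ i, Fintype (ClassGroup (R i))] {φ : ∀ i, ClassGroup (R i) → ℍ}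

theorem auto_small {D : ∀ i, Set (ClassGroup (R i))} {ν : ∀ i, ClassGroup (R i) → ℝ}
    (hs : Single R φ) (hm : MixingOn R φ D ν) {g : ℍ → ℂ} (hg : IsTest g) {η : ℝ}
    (hη0 : 0 < η) : ∃ B : ℝ, ∀ᶠ i in atTop, ∀ τ ∈ D i, B < ν i τ →
      ‖mean fun a => (g (φ i a) - hyp g) * conj (g (φ i (a * τ)) - hyp g)‖ ≤ η ^ 2 / 2 := by
  obtain ⟨B, hB⟩ := hm g (fun z => conj (g z)) hg (isTest_conj hg) (η ^ 2 / 4) (by positivity)
  have hg1 := hyp_le_of_single hs hg
  have e2 : ∀ᶠ i in atTop, ‖(mean fun a => g (φ i a)) - hyp g‖ < η ^ 2 / 8 := by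
    filter_upwards [(Metric.tendsto_nhds.1 (hs g hg)) (η ^ 2 / 8) (by positivity)] with i hi
    rwa [dist_eq_norm] at hi
  refine ⟨B, ?_⟩
  filter_upwards [hB, e2] with i hBi h2 τ hτ hντ
  have h3 := hBi τ hτ hντ
  have e : (mean fun a => (g (φ i a) - hyp g) * conj (g (φ i (a * τ)) - hyp g)) =
      gap R φ i g (fun z => conj (g z)) τ - conj (hyp g) * ((mean fun a => g (φ i a)) - hyp g) -
        hyp g * conj ((mean fun a => g (φ i a)) - hyp g) := by
    have s1 : (mean fun a => conj (g (φ i (a * τ)))) = conj (mean fun a => g (φ i a)) := by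
      rw [← mean_shift (fun a => g (φ i a)) τ]
      unfold mean
      rw [map_div₀, map_sum, map_natCast]
    have h0 : (Fintype.card (ClassGroup (R i)) : ℂ) ≠ 0 := by exact_mod_cast Fintype.card_ne_zero
    have e3 : ∀ a, (g (φ i a) - hyp g) * conj (g (φ i (a * τ)) - hyp g) =
        g (φ i a) * conj (g (φ i (a * τ))) - conj (hyp g) * g (φ i a) -
          hyp g * conj (g (φ i (a * τ))) + hyp g * conj (hyp g) := by
      intro a
      rw [map_sub]
      ring
    rw [map_sub, ← s1]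
    unfold gap
    rw [hyp_conj]
    simp only [mean, e3]
    rw [Finset.sum_add_distrib, Finset.sum_sub_distrib, Finset.sum_sub_distrib, ← Finset.mul_sum,
      ← Finset.mul_sum, Finset.sum_const, Finset.card_univ, nsmul_eq_mul]
    field_simp
    ring
  rw [e]
  have h4 := norm_sub_le (gap R φ i g (fun z => conj (g z)) τ -
    conj (hyp g) * ((mean fun a => g (φ i a)) - hyp g))
    (hyp g * conj ((mean fun a => g (φ i a)) - hyp g))
  have h5 := norm_sub_le (gap R φ i g (fun z => conj (g z)) τ)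
    (conj (hyp g) * ((mean fun a => g (φ i a)) - hyp g))
  have h6 : ‖conj (hyp g) * ((mean fun a => g (φ i a)) - hyp g)‖ ≤ η ^ 2 / 8 := by
    rw [norm_mul, Complex.norm_conj]
    exact (mul_le_of_le_one_left (norm_nonneg _) hg1).trans h2.le
  have h7 : ‖hyp g * conj ((mean fun a => g (φ i a)) - hyp g)‖ ≤ η ^ 2 / 8 := by
    rw [norm_mul, Complex.norm_conj]
    exact (mul_le_of_le_one_left (norm_nonneg _) hg1).trans h2.le
  linarith

theorem one_more {D : ∀ i, Set (ClassGroup (R i))} {ν : ∀ i, ClassGroup (R i) → ℝ}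
    (hs : Single R φ) (hν : Sizes R ν) (hm : MixingOn R φ D ν) {n : ℕ} {A : ℕ → Type}
    [∀ i, Group (A i)] [∀ i, Fintype (A i)] (π : ∀ i, A i →* ClassGroup (R i))
    (hπ : ∀ i, Function.Surjective (π i)) (y : ∀ i, A i → Fin n → ℍ) (hy : Equi y) {ω : ℕ → ℝ}
    (hω : Tendsto ω atTop atTop) : ∃ E : ∀ i, Set (ClassGroup (R i)),
      (∀ᶠ i in atTop, ∀ u ∈ Clusters (D i), (Nat.card {σ // σ ∈ u ∧ σ ∈ E i} : ℝ) ≤ ω i) ∧
      ∀ σ : ∀ i, ClassGroup (R i), (∀ᶠ i in atTop, σ i ∉ E i) →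
        Equi fun i (a : A i) => (Fin.cons (φ i (π i a * σ i)) (y i a) : Fin (n + 1) → ℍ) := by
  classical
  obtain ⟨g, hg, hap⟩ := exists_family
  obtain ⟨e, he⟩ := exists_surjective_nat (Fin (n + 1) → ℕ)
  obtain ⟨E, hE, hb⟩ := diag_count (B := fun i => ClassGroup (R i)) (fun i => Clusters (D i))
    (fun k i σ => mean fun a : A i => (∏ j, g (e k (Fin.succ j)) (y i a j)) *
      (g (e k 0) (φ i (π i a * σ)) - hyp (g (e k 0))))
    (fun k ε hε => by
      obtain ⟨B, hB⟩ := auto_small hs hm (hg (e k 0)) hε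
      obtain ⟨c, hc⟩ := hν B
      refine ⟨⌊2 * 2 ^ 2 * (c : ℝ) / ε ^ 2⌋₊, ?_⟩
      filter_upwards [hB] with i hBi u hu
      rw [Nat.card_eq_fintype_card, Fintype.card_subtype]
      refine Nat.le_floor ?_
      refine count_hom (π i) (hπ i) (fun a => ∏ j, g (e k (Fin.succ j)) (y i a j))
        (fun x => g (e k 0) (φ i x) - hyp (g (e k 0))) (fun a => ?_) (K := 2)
        (fun a => ?_) _ (fun τ => ν i τ ≤ B) hε (c := c) ?_ (fun σ hσ => ?_)
        fun σ hσ σ' hσ' hQ => ?_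
      · rw [norm_prod]
        exact Finset.prod_le_one (fun _ _ => norm_nonneg _) fun j _ => (hg _).2.2.2 _
      · have h1 := norm_sub_le (g (e k 0) (φ i a)) (hyp (g (e k 0)))
        have h3 := (hg (e k 0)).2.2.2 (φ i a)
        have h4 := hyp_le_of_single hs (hg (e k 0))
        linarith
      · have h3 := hc i
        rw [Nat.card_eq_fintype_card, Fintype.card_subtype] at h3
        exact h3
      · exact (Finset.mem_filter.1 hσ).2.2
      · obtain ⟨-, hσu, -⟩ := Finset.mem_filter.1 hσ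
        obtain ⟨-, hσu', -⟩ := Finset.mem_filter.1 hσ'
        exact hBi _ (hu σ hσu σ' hσu') (not_le.1 hQ)) hω
  refine ⟨E, hE, fun σ hσ => equi_of_family (fun N => ⟨N, hap N⟩) _ fun k _ => ?_⟩
  obtain ⟨l, hl⟩ := he k
  have h1 := hb σ hσ l
  rw [hl] at h1
  have h2 : Tendsto (fun i => hyp (g (k 0)) * ((mean fun a : A i =>
      ∏ j, g (k (Fin.succ j)) (y i a j)) - ∏ j, hyp (g (k (Fin.succ j))))) atTop (𝓝 0) := by
    have h3 := hy _ (isTestN_prod fun j => hg (k (Fin.succ j)))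
    rw [hypN_prod] at h3
    have h4 := h3.sub_const (∏ j, hyp (g (k (Fin.succ j))))
    rw [sub_self] at h4
    simpa using h4.const_mul (hyp (g (k 0)))
  have h3 := h1.add h2
  rw [add_zero] at h3
  refine h3.congr fun i => ?_
  simp only [Fin.prod_univ_succ, Fin.cons_zero, Fin.cons_succ]
  unfold mean
  simp only [mul_sub]
  rw [Finset.sum_sub_distrib, ← Finset.sum_mul]
  have e5 : ∑ a : A i, g (k 0) (φ i (π i a * σ i)) * ∏ j, g (k (Fin.succ j)) (y i a j) =
      ∑ a : A i, (∏ j, g (k (Fin.succ j)) (y i a j)) * g (k 0) (φ i (π i a * σ i)) :=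
    Finset.sum_congr rfl fun a _ => mul_comm _ _
  rw [e5]
  ring

end

/-- the statement: one more coordinate -/
def OneMoreAll : Prop := ∀ (R : ℕ → Type) [∀ i, CommRing (R i)] [∀ i, IsDomain (R i)]
  [∀ i, Fintype (ClassGroup (R i))] (φ : ∀ i, ClassGroup (R i) → ℍ), (∀ i, IsCM (R i) (φ i)) →
  Single R φ → ∀ (ν : ∀ i, ClassGroup (R i) → ℝ) (D : ∀ i, Set (ClassGroup (R i))), Sizes R ν →
  MixingOn R φ D ν → ∀ (n : ℕ) (A : ℕ → Type) [∀ i, Group (A i)] [∀ i, Fintype (A i)]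
  (π : ∀ i, A i →* ClassGroup (R i)), (∀ i, Function.Surjective (π i)) →
  ∀ y : ∀ i, A i → Fin n → ℍ, Equi y →
  ∀ ω : ℕ → ℝ, Tendsto ω atTop atTop → ∃ E : ∀ i, Set (ClassGroup (R i)),
      (∀ᶠ i in atTop, ∀ u ∈ Clusters (D i), (Nat.card {σ // σ ∈ u ∧ σ ∈ E i} : ℝ) ≤ ω i) ∧
      ∀ σ : ∀ i, ClassGroup (R i), (∀ᶠ i in atTop, σ i ∉ E i) →
        Equi fun i (a : A i) => (Fin.cons (φ i (π i a * σ i)) (y i a) : Fin (n + 1) → ℍ)

theorem oneMoreAll : OneMoreAll := by
  intro R _ _ _ φ _ hs ν D hν hm n A _ _ π hπ y hy ω hω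
  exact one_more hs hν hm π hπ y hy hω

end Pool.Agent.X208.MX
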