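import Pool.Agent.X208.MX.Main

/-! The criterion for almost all twists. -/

set_option autoImplicit false

namespace Pool.Agent.X208.MX

open Filter Topology MeasureTheory
open scoped UpperHalfPlane MatrixGroups ComplexConjugate
open Pool.Agent.X208.CM

theorem mean_sub_const {A : Type} [Fintype A] [Nonempty A] (f : A → ℂ) (c : ℂ) :
    (mean fun a => f a - c) = mean f - c := by
  unfold mean
  have h0 : (Fintype.card A : ℂ) ≠ 0 := by exact_mod_cast Fintype.card_ne_zero
  rw [Finset.sum_sub_distrib, Finset.sum_const, Finset.card_univ, nsmul_eq_mul, sub_div,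
    mul_div_cancel_left₀ _ h0]

theorem share_pair {G : Type} [CommGroup G] [Fintype G] (P : G → Prop) :
    share (fun b : Fin 2 → G => P ((b 0)⁻¹ * b 1)) = share P := by
  classical
  rw [share_eq, share_eq]
  have e1 : ((Finset.univ.filter fun b : Fin 2 → G => P ((b 0)⁻¹ * b 1)).card : ℝ) =
      Fintype.card G * (Finset.univ.filter P).card := by
    rw [Finset.card_filter, Finset.card_filter]
    have e : ∑ b : Fin 2 → G, (if P ((b 0)⁻¹ * b 1) then 1 else 0) =
        ∑ p : G × G, (if P (p.1⁻¹ * p.2) then 1 else 0) :=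
      Fintype.sum_equiv (finTwoArrowEquiv G) _ _ fun b => rfl
    rw [e, Fintype.sum_prod_type]
    have h : ∀ x : G, ∑ y : G, (if P (x⁻¹ * y) then 1 else 0) = ∑ y : G, if P y then 1 else 0 :=
      fun x => Fintype.sum_equiv (Equiv.mulLeft x⁻¹) _ _ fun y => rfl
    rw [Finset.sum_congr rfl fun x _ => h x, Finset.sum_const, Finset.card_univ, smul_eq_mul]
    push_cast
    rfl
  rw [e1, Fintype.card_fun, Fintype.card_fin]
  push_cast
  have h0 : (Fintype.card G : ℝ) ≠ 0 := by exact_mod_cast Fintype.card_ne_zero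
  field_simp

section
variable (R : ℕ → Type) [∀ i, CommRing (R i)] [∀ i, IsDomain (R i)]
  [∀ i, Fintype (ClassGroup (R i))] (φ : ∀ i, ClassGroup (R i) → ℍ)

/-- The packets equidistribute in the modular curve (Duke's theorem). -/
def Single : Prop := ∀ f, IsTest f → Tendsto (fun i => mean fun a => f (φ i a)) atTop (𝓝 (hyp f))

/-- The joint packets of almost all twists equidistribute. -/
def AlmostAllTwists : Prop := ∃ E : ∀ i, Set (ClassGroup (R i)),
  Tendsto (fun i => share fun b => b ∈ E i) atTop (𝓝 0) ∧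
    ∀ σ : ∀ i, ClassGroup (R i), (∀ᶠ i in atTop, σ i ∉ E i) → Joint R φ σ

end

section
variable {R : ℕ → Type} [∀ i, CommRing (R i)] [∀ i, IsDomain (R i)]
  [∀ i, Fintype (ClassGroup (R i))] {φ : ∀ i, ClassGroup (R i) → ℍ}

theorem single_of_weyl (h : WeylLaw R φ) : Single R φ := by
  intro f hf
  rw [Metric.tendsto_atTop]
  intro ε hε
  obtain ⟨i0, hi0⟩ := eventually_atTop.1 (h f hf (ε / 2) (by positivity))
  refine ⟨i0, fun i hi => ?_⟩
  have h1 := hi0 i hi 0
  simp only [AddChar.zero_apply, mul_one] at h1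
  rw [mean_sub_const] at h1
  rw [dist_eq_norm]
  linarith

theorem equi_pair {g : ℕ → C(ℍ, ℂ)}
    (hap : ∀ N, ∃ N', ∀ f ∈ T N, ∀ δ : ℝ, 0 < δ → ∃ k, g k ∈ T N' ∧ ∀ z, ‖f z - g k z‖ ≤ δ)
    (hg : ∀ k, IsTest (g k)) (hs : Single R φ) {σ : ∀ i, ClassGroup (R i)}
    (h : ∀ k l, Tendsto (fun i => mean fun a : ClassGroup (R i) => g k (φ i a) *
      (g l (φ i (a * σ i)) - hyp (g l))) atTop (𝓝 0)) : Joint R φ σ := by
  refine equi_of_family hap _ fun k _ => ?_
  have h1 := h (k 0) (k 1)
  have h2 : Tendsto (fun i => hyp (g (k 1)) * ((mean fun a => g (k 0) (φ i a)) - hyp (g (k 0))))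
      atTop (𝓝 0) := by
    have h3 := (hs (g (k 0)) (hg _)).sub_const (hyp (g (k 0)))
    rw [sub_self] at h3
    simpa using h3.const_mul (hyp (g (k 1)))
  have h3 := h1.add h2
  rw [add_zero] at h3
  refine h3.congr fun i => ?_
  simp only [Fin.prod_univ_two, Matrix.cons_val_zero, Matrix.cons_val_one]
  unfold mean
  simp only [mul_sub]
  rw [Finset.sum_sub_distrib, ← Finset.sum_mul]
  ring

theorem twists_of_weyl (h : WeylLaw R φ) : AlmostAllTwists R φ := by
  obtain ⟨g, hg, hap⟩ := exists_family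
  obtain ⟨e, he⟩ := exists_surjective_nat (ℕ × ℕ)
  obtain ⟨E, hE, hb⟩ := diag (B := fun i => ClassGroup (R i)) (fun k i σ =>
    mean fun a : ClassGroup (R i) => g (e k).1 (φ i a) * (g (e k).2 (φ i (a * σ)) - hyp (g (e k).2)))
    fun k ε hε => by
      rw [tendsto_order]
      refine ⟨fun a ha => Eventually.of_forall fun i => ha.trans_le (share_nonneg _),
        fun δ hδ => ?_⟩
      have hw0 : 0 < ε * Real.sqrt (δ / 2) := by positivity
      filter_upwards [h (g (e k).2) (hg _) _ hw0] with i hi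
      have h1 := one (G := ClassGroup (R i)) (fun a => a) spread_id (fun a => g (e k).1 (φ i a))
        (fun a => (hg _).2.2.2 _) (fun c => g (e k).2 (φ i c) - hyp (g (e k).2)) hi
      have h2 := cheb (fun σ => mean fun a : ClassGroup (R i) => g (e k).1 (φ i a) *
        (g (e k).2 (φ i (a * σ)) - hyp (g (e k).2))) hε
        (C := 1 * (ε * Real.sqrt (δ / 2)) ^ 2) (by positivity) h1
      refine lt_of_le_of_lt h2 ?_
      rw [one_mul, mul_pow, Real.sq_sqrt (by positivity), mul_div_cancel_left₀ _ (by positivity)]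
      linarith
  refine ⟨E, hE, fun σ hσ => equi_pair (fun N => ⟨N, hap N⟩) hg (single_of_weyl h) fun k l => ?_⟩
  obtain ⟨m, hm⟩ := he (k, l)
  have := hb σ hσ m
  simpa only [hm] using this

theorem weyl_of_twists (hs : Single R φ) (h : AlmostAllTwists R φ) : WeylLaw R φ := by
  refine weyl_of_tuple ?_ ?_
  · intro f hf ε hε
    have h1 := Metric.tendsto_atTop.1 (hs (f 0) (hf 0)) ε hε
    obtain ⟨i0, hi0⟩ := h1
    refine tendsto_const_nhds.congr' ?_
    filter_upwards [eventually_ge_atTop i0] with i hi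
    classical
    rw [share_eq, Finset.filter_false_of_mem, Finset.card_empty, Nat.cast_zero, zero_div]
    intro b _
    simp only [Finset.univ_unique, Fin.default_eq_zero, Finset.prod_singleton]
    rw [mean_shift (fun c => f 0 (φ i c)) (b 0), ← dist_eq_norm]
    exact not_lt.2 (hi0 i hi).le
  · intro f hf ε hε
    obtain ⟨E, hE, hb⟩ := h
    have h1 : Tendsto (fun i => share fun σ : ClassGroup (R i) =>
        ε < ‖(mean fun a : ClassGroup (R i) => ∏ j, f j ((![φ i a, φ i (a * σ)] : Fin 2 → ℍ) j)) -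
          ∏ j, hyp (f j)‖) atTop (𝓝 0) := by
      refine share_of_sets hE fun σ hσ => ?_
      have h1 := hb σ hσ _ (isTestN_prod hf)
      rw [hypN_prod] at h1
      obtain ⟨i0, hi0⟩ := Metric.tendsto_atTop.1 h1 ε hε
      refine eventually_atTop.2 ⟨i0, fun i hi => ?_⟩
      have h3 := hi0 i hi
      rw [dist_eq_norm] at h3
      exact not_lt.2 h3.le
    refine h1.congr fun i => ?_
    rw [← share_pair]
    congr 1
    funext b
    simp only [Fin.prod_univ_two, Matrix.cons_val_zero, Matrix.cons_val_one]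
    have h2 := mean_shift (fun a : ClassGroup (R i) => f 0 (φ i a) *
      f 1 (φ i (a * ((b 0)⁻¹ * b 1)))) (b 0)
    rw [← h2]
    simp only [mul_assoc, mul_inv_cancel_left]

theorem criterion_twists : WeylLaw R φ ↔ Single R φ ∧ AlmostAllTwists R φ :=
  ⟨fun h => ⟨single_of_weyl h, twists_of_weyl h⟩, fun h => weyl_of_twists h.1 h.2⟩

end

/-- the statement -/
def Twists : Prop := ∀ (R : ℕ → Type) [∀ i, CommRing (R i)] [∀ i, IsDomain (R i)]
  [∀ i, Fintype (ClassGroup (R i))] (φ : ∀ i, ClassGroup (R i) → ℍ), (∀ i, IsCM (R i) (φ i)) →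
  (WeylLaw R φ ↔ Single R φ ∧ AlmostAllTwists R φ) ∧
    ∀ (S : Set C(ℍ, ℂ)) (w ω : ℕ → ℝ), DenseTests S → Tendsto w atTop (𝓝 0) → Rate R φ S w →
      Tendsto ω atTop atTop → ∃ E : ∀ i, Set (ClassGroup (R i)),
        (∀ᶠ i in atTop, share (fun b => b ∈ E i) ≤ ω i * w i ^ 2) ∧
        (∀ᶠ i in atTop, ∀ (H : Subgroup (ClassGroup (R i))) (g : ClassGroup (R i)),
          share (fun h : H => g * (h : ClassGroup (R i)) ∈ E i) ≤ H.index * (ω i * w i ^ 2)) ∧
        ∀ σ : ∀ i, ClassGroup (R i), (∀ᶠ i in atTop, σ i ∉ E i) → Joint R φ σ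

theorem twists : Twists := by
  intro R _ _ _ φ _
  refine ⟨criterion_twists, fun S w ω hS hw hr hω => ?_⟩
  obtain ⟨E, hE, hb⟩ := joint hS hw hr hω
  refine ⟨E, hE, ?_, hb⟩
  filter_upwards [hE] with i hi H g
  exact (share_coset (E i) H g).trans (mul_le_mul_of_nonneg_left hi (Nat.cast_nonneg _))

end Pool.Agent.X208.MX
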