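import Pool.Agent.X208.CM.Diff

/-! Joint packets: small exceptional sets of twists. -/

set_option autoImplicit false

namespace Pool.Agent.X208.MX

open Filter Topology MeasureTheory
open scoped UpperHalfPlane MatrixGroups ComplexConjugate
open Pool.Agent.X208.CM

/-- a countable subfamily of a dense family -/
theorem exists_family_in {S : Set C(ℍ, ℂ)} (hS : DenseTests S) : ∃ g : ℕ → C(ℍ, ℂ),
    (∀ k, g k ∈ S ∧ IsTest (g k)) ∧ ∀ N, ∃ N', ∀ f ∈ T N, ∀ δ : ℝ, 0 < δ →
      ∃ k, g k ∈ T N' ∧ ∀ z, ‖f z - g k z‖ ≤ δ := by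
  classical
  choose D hD hDT hap using exists_dense
  choose N' hN' using hS
  choose g hgS hgT hgap using hN'
  let J := Σ N, (D N) × ℕ
  have : ∀ N, Countable (D N) := fun N => (hD N).to_subtype
  have : Countable J := inferInstance
  let G : J → C(ℍ, ℂ) := fun p => g p.1 p.2.1.1 (hDT p.1 p.2.1.2) (1 / ((p.2.2 : ℝ) + 1))
    (by positivity)
  have h0 : (0 : C(ℍ, ℂ)) ∈ T 0 := ⟨fun _ _ => rfl, fun _ _ _ => rfl, fun _ => by simp⟩
  have hJ : Nonempty J := by
    obtain ⟨g0, hg0, -⟩ := hap 0 0 h0 1 one_pos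
    exact ⟨⟨0, ⟨g0, hg0⟩, 0⟩⟩
  obtain ⟨e, he⟩ := exists_surjective_nat J
  refine ⟨fun k => G (e k), fun k => ⟨hgS _ _ _ _ _, isTest_of_T (hgT _ _ _ _ _)⟩,
    fun N => ⟨N' N, fun f hf δ hδ => ?_⟩⟩
  obtain ⟨f', hf'D, hf'⟩ := hap N f hf (δ / 2) (by positivity)
  obtain ⟨m, hm⟩ := exists_nat_one_div_lt (half_pos hδ)
  obtain ⟨k, hk⟩ := he ⟨N, ⟨f', hf'D⟩, m⟩
  refine ⟨k, ?_, fun x => ?_⟩
  · simp only [hk]
    exact hgT _ _ _ _ _
  · simp only [hk]
    have h1 := hf' x
    have h2 := hgap N f' (hDT N hf'D) (1 / ((m : ℝ) + 1)) (by positivity) x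
    have h3 := norm_add_le (f x - f' x)
      (f' x - g N f' (hDT N hf'D) (1 / ((m : ℝ) + 1)) (by positivity) x)
    rw [sub_add_sub_cancel] at h3
    have h4 : f x - G ⟨N, ⟨f', hf'D⟩, m⟩ x =
        f x - g N f' (hDT N hf'D) (1 / ((m : ℝ) + 1)) (by positivity) x := rfl
    rw [h4]
    linarith

/-- the diagonal argument with a rate -/
theorem diag_rate {B : ℕ → Type} [∀ i, Finite (B i)] (T : ℕ → ∀ i, B i → ℂ) (C : ℕ → ℝ)
    {v : ℕ → ℝ} (hv : ∀ i, 0 ≤ v i)
    (h : ∀ k, ∀ᶠ i in atTop, ∀ ε : ℝ, 0 < ε →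
      share (fun b : B i => ε < ‖T k i b‖) ≤ C k * v i / ε ^ 2)
    {ω : ℕ → ℝ} (hω : Tendsto ω atTop atTop) :
    ∃ E : ∀ i, Set (B i), (∀ᶠ i in atTop, share (fun b => b ∈ E i) ≤ ω i * v i) ∧
      ∀ b : ∀ i, B i, (∀ᶠ i in atTop, b i ∉ E i) →
        ∀ k, Tendsto (fun i => T k i (b i)) atTop (𝓝 0) := by
  classical
  let P : ℕ → ℕ → Prop := fun m i => (∀ k < m, ∀ ε : ℝ, 0 < ε →
    share (fun b : B i => ε < ‖T k i b‖) ≤ C k * v i / ε ^ 2) ∧
      (∑ k ∈ Finset.range m, C k) * ((m : ℝ) + 1) ^ 2 ≤ ω i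
  have hP : ∀ m, ∀ᶠ i in atTop, P m i := by
    intro m
    have h1 : ∀ᶠ i in atTop, ∀ k ∈ Finset.range m, ∀ ε : ℝ, 0 < ε →
        share (fun b : B i => ε < ‖T k i b‖) ≤ C k * v i / ε ^ 2 :=
      (Filter.eventually_all_finset _).2 fun k _ => h k
    filter_upwards [h1, hω.eventually_ge_atTop ((∑ k ∈ Finset.range m, C k) * ((m : ℝ) + 1) ^ 2)]
      with i hi hi2
    exact ⟨fun k hk => hi k (Finset.mem_range.2 hk), hi2⟩
  set M : ℕ → ℕ := fun i => Nat.findGreatest (fun m => P m i) i with hM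
  have hMs : ∀ᶠ i in atTop, P (M i) i := by
    filter_upwards [hP 0] with i hi
    exact Nat.findGreatest_spec (P := fun m => P m i) (Nat.zero_le i) hi
  have hMt : Tendsto M atTop atTop := by
    refine tendsto_atTop.2 fun m => ?_
    filter_upwards [hP m, eventually_ge_atTop m] with i hi him
    exact Nat.le_findGreatest him hi
  have hM1 : Tendsto (fun i => 1 / ((M i : ℝ) + 1)) atTop (𝓝 0) :=
    tendsto_one_div_add_atTop_nhds_zero_nat.comp hMt
  refine ⟨fun i => {b | ∃ k < M i, 1 / ((M i : ℝ) + 1) < ‖T k i b‖}, ?_, fun b hb k => ?_⟩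
  · filter_upwards [hMs] with i hi
    refine (share_le_sum (M i) fun k b => 1 / ((M i : ℝ) + 1) < ‖T k i b‖).trans ?_
    have h1 : ∀ k ∈ Finset.range (M i), share (fun b : B i => 1 / ((M i : ℝ) + 1) < ‖T k i b‖) ≤
        C k * (v i * ((M i : ℝ) + 1) ^ 2) := by
      intro k hk
      refine (hi.1 k (Finset.mem_range.1 hk) (1 / ((M i : ℝ) + 1)) (by positivity)).trans
        (le_of_eq ?_)
      field_simp
    refine (Finset.sum_le_sum h1).trans ?_
    rw [← Finset.sum_mul]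
    calc _ = ((∑ k ∈ Finset.range (M i), C k) * ((M i : ℝ) + 1) ^ 2) * v i := by ring
      _ ≤ ω i * v i := mul_le_mul_of_nonneg_right hi.2 (hv i)
  · rw [tendsto_zero_iff_norm_tendsto_zero]
    refine squeeze_zero' (Eventually.of_forall fun _ => norm_nonneg _) ?_ hM1
    filter_upwards [hb, hMt.eventually_gt_atTop k] with i hi hk
    by_contra hcon
    exact hi ⟨k, hk, not_le.1 hcon⟩

/-- an exceptional set in the cosets of a subgroup -/
theorem share_coset {G : Type} [CommGroup G] [Finite G] (E : Set G) (H : Subgroup G) (g : G) :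
    share (fun h : H => g * (h : G) ∈ E) ≤ H.index * share fun b => b ∈ E := by
  unfold share
  have hH : (0 : ℝ) < Nat.card H := by exact_mod_cast Nat.card_pos
  have h1 : (Nat.card H : ℝ) * H.index = Nat.card G := by exact_mod_cast Subgroup.card_mul_index H
  have hI : (0 : ℝ) < H.index := by
    exact_mod_cast Nat.pos_of_ne_zero Subgroup.index_ne_zero_of_finite
  have h2 : Nat.card {h : H // g * (h : G) ∈ E} ≤ Nat.card {b // b ∈ E} := by
    refine Nat.card_le_card_of_injective (fun h => ⟨g * (h.1 : G), h.2⟩) ?_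
    intro a b hab
    have h3 : g * (a.1 : G) = g * (b.1 : G) := congrArg Subtype.val hab
    exact Subtype.ext (Subtype.ext (mul_left_cancel h3))
  have h2' : (Nat.card {h : H // g * (h : G) ∈ E} : ℝ) ≤ Nat.card {b // b ∈ E} := by
    exact_mod_cast h2
  rw [← h1]
  calc (Nat.card {h : H // g * (h : G) ∈ E} : ℝ) / Nat.card H ≤
      Nat.card {b // b ∈ E} / Nat.card H := div_le_div_of_nonneg_right h2' hH.le
    _ = H.index * (Nat.card {b // b ∈ E} / (Nat.card H * H.index)) := by field_simp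

section
variable (R : ℕ → Type) [∀ i, CommRing (R i)] [∀ i, IsDomain (R i)]
  [∀ i, Fintype (ClassGroup (R i))] (φ : ∀ i, ClassGroup (R i) → ℍ)

/-- The twisted Weyl sums of the tests in `S` are `O(w)`. -/
def Rate (S : Set C(ℍ, ℂ)) (w : ℕ → ℝ) : Prop := ∀ f ∈ S, IsTest f → ∃ C : ℝ,
  ∀ᶠ i in atTop, Weyl (fun c => f (φ i c) - hyp f) (C * w i)

/-- The joint packets for the twists `σ` equidistribute in the product of two modular curves. -/
def Joint (σ : ∀ i, ClassGroup (R i)) : Prop :=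
  Equi fun i (a : ClassGroup (R i)) => (![φ i a, φ i (a * σ i)] : Fin 2 → ℍ)

variable {R φ}

theorem joint {S : Set C(ℍ, ℂ)} (hS : DenseTests S) {w : ℕ → ℝ} (hw : Tendsto w atTop (𝓝 0))
    (h : Rate R φ S w) {ω : ℕ → ℝ} (hω : Tendsto ω atTop atTop) :
    ∃ E : ∀ i, Set (ClassGroup (R i)),
      (∀ᶠ i in atTop, share (fun b => b ∈ E i) ≤ ω i * w i ^ 2) ∧
      ∀ σ : ∀ i, ClassGroup (R i), (∀ᶠ i in atTop, σ i ∉ E i) → Joint R φ σ := by
  classical
  obtain ⟨g, hg, hap⟩ := exists_family_in hS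
  obtain ⟨e, he⟩ := exists_surjective_nat (ℕ × ℕ)
  choose C hC using fun k => h (g k) (hg k).1 (hg k).2
  obtain ⟨E, hE, hb⟩ := diag_rate (B := fun i => ClassGroup (R i)) (fun k i σ =>
    mean fun a : ClassGroup (R i) => g (e k).1 (φ i a) * (g (e k).2 (φ i (a * σ)) - hyp (g (e k).2)))
    (fun k => C (e k).2 ^ 2) (v := fun i => w i ^ 2) (fun i => sq_nonneg _) (fun k => by
      filter_upwards [hC (e k).2] with i hi ε hε
      have h1 := one (G := ClassGroup (R i)) (fun a => a) spread_id (fun a => g (e k).1 (φ i a))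
        (fun a => (hg _).2.2.2.2 _) (fun c => g (e k).2 (φ i c) - hyp (g (e k).2)) hi
      have h2 := cheb (fun σ => mean fun a : ClassGroup (R i) => g (e k).1 (φ i a) *
        (g (e k).2 (φ i (a * σ)) - hyp (g (e k).2))) hε
        (C := 1 * (C (e k).2 * w i) ^ 2) (by positivity) h1
      refine h2.trans (le_of_eq ?_)
      ring) hω
  refine ⟨E, hE, fun σ hσ => equi_of_family hap _ fun k _ => ?_⟩
  -- the two terms
  obtain ⟨l, hl⟩ := he (k 0, k 1)
  have h1 := hb σ hσ l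
  have h2 : Tendsto (fun i => hyp (g (k 1)) * ((mean fun a => g (k 0) (φ i a)) - hyp (g (k 0))))
      atTop (𝓝 0) := by
    have h3 : Tendsto (fun i => (mean fun a => g (k 0) (φ i a)) - hyp (g (k 0))) atTop (𝓝 0) := by
      rw [tendsto_zero_iff_norm_tendsto_zero]
      have h4 : Tendsto (fun i => C (k 0) * w i) atTop (𝓝 0) := by
        simpa using hw.const_mul (C (k 0))
      refine squeeze_zero' (Eventually.of_forall fun _ => norm_nonneg _) ?_ h4
      filter_upwards [hC (k 0)] with i hi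
      have h5 := hi 0
      have h6 : (mean fun c => (g (k 0) (φ i c) - hyp (g (k 0))) *
          (0 : AddChar (Additive (ClassGroup (R i))) ℂ) (Additive.ofMul c)) =
          (mean fun c => g (k 0) (φ i c)) - hyp (g (k 0)) := by
        unfold mean
        have h0 : (Fintype.card (ClassGroup (R i)) : ℂ) ≠ 0 := by
          exact_mod_cast Fintype.card_ne_zero
        simp only [AddChar.zero_apply, mul_one]
        rw [Finset.sum_sub_distrib, Finset.sum_const, Finset.card_univ, nsmul_eq_mul, sub_div,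
          mul_div_cancel_left₀ _ h0]
      rwa [h6] at h5
    simpa using h3.const_mul (hyp (g (k 1)))
  have h3 := h1.add h2
  rw [add_zero] at h3
  refine h3.congr fun i => ?_
  have h0 : (Fintype.card (ClassGroup (R i)) : ℂ) ≠ 0 := by
    exact_mod_cast Fintype.card_ne_zero
  simp only [Fin.prod_univ_two, Matrix.cons_val_zero, Matrix.cons_val_one, hl]
  unfold mean
  simp only [mul_sub]
  rw [Finset.sum_sub_distrib, ← Finset.sum_mul]
  ring

end

end Pool.Agent.X208.MX
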