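import Pool.Agent.X208.MX.Vdc

/-! The mixing conjecture for quotients bounds the number of exceptional twists. -/

set_option autoImplicit false

namespace Pool.Agent.X208.MX

open Filter Topology MeasureTheory
open scoped UpperHalfPlane MatrixGroups ComplexConjugate
open Pool.Agent.X208.CM

/-- the diagonal argument with counting -/
theorem diag_count {B : ℕ → Type} [∀ i, Finite (B i)] (U : ∀ i, Set (Set (B i)))
    (T : ℕ → ∀ i, B i → ℂ)
    (h : ∀ k, ∀ ε : ℝ, 0 < ε → ∃ M : ℕ, ∀ᶠ i in atTop, ∀ u ∈ U i,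
      Nat.card {σ // σ ∈ u ∧ ε < ‖T k i σ‖} ≤ M)
    {ω : ℕ → ℝ} (hω : Tendsto ω atTop atTop) :
    ∃ E : ∀ i, Set (B i), (∀ᶠ i in atTop, ∀ u ∈ U i, (Nat.card {σ // σ ∈ u ∧ σ ∈ E i} : ℝ) ≤ ω i) ∧
      ∀ b : ∀ i, B i, (∀ᶠ i in atTop, b i ∉ E i) →
        ∀ k, Tendsto (fun i => T k i (b i)) atTop (𝓝 0) := by
  classical
  choose M hM using h
  let M' : ℕ → ℕ → ℕ := fun k m => M k (1 / ((m : ℝ) + 1)) (by positivity)
  let P : ℕ → ℕ → Prop := fun m i => (∀ k < m, ∀ u ∈ U i,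
    Nat.card {σ // σ ∈ u ∧ 1 / ((m : ℝ) + 1) < ‖T k i σ‖} ≤ M' k m) ∧
      ((∑ k ∈ Finset.range m, M' k m : ℕ) : ℝ) ≤ ω i
  have hP : ∀ m, ∀ᶠ i in atTop, P m i := by
    intro m
    have h1 : ∀ᶠ i in atTop, ∀ k ∈ Finset.range m, ∀ u ∈ U i,
        Nat.card {σ // σ ∈ u ∧ 1 / ((m : ℝ) + 1) < ‖T k i σ‖} ≤ M' k m :=
      (Filter.eventually_all_finset _).2 fun k _ => hM k _ (by positivity)
    filter_upwards [h1, hω.eventually_ge_atTop ((∑ k ∈ Finset.range m, M' k m : ℕ) : ℝ)]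
      with i hi hi2
    exact ⟨fun k hk => hi k (Finset.mem_range.2 hk), hi2⟩
  set N : ℕ → ℕ := fun i => Nat.findGreatest (fun m => P m i) i with hN
  have hNs : ∀ᶠ i in atTop, P (N i) i := by
    filter_upwards [hP 0] with i hi
    exact Nat.findGreatest_spec (P := fun m => P m i) (Nat.zero_le i) hi
  have hNt : Tendsto N atTop atTop := by
    refine tendsto_atTop.2 fun m => ?_
    filter_upwards [hP m, eventually_ge_atTop m] with i hi him
    exact Nat.le_findGreatest him hi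
  have hN1 : Tendsto (fun i => 1 / ((N i : ℝ) + 1)) atTop (𝓝 0) :=
    tendsto_one_div_add_atTop_nhds_zero_nat.comp hNt
  refine ⟨fun i => {b | ∃ k < N i, 1 / ((N i : ℝ) + 1) < ‖T k i b‖}, ?_, fun b hb k => ?_⟩
  · filter_upwards [hNs] with i hi u hu
    refine le_trans ?_ hi.2
    have := Fintype.ofFinite (B i)
    have h1 : Nat.card {σ // σ ∈ u ∧ σ ∈ {b | ∃ k < N i, 1 / ((N i : ℝ) + 1) < ‖T k i b‖}} ≤
        ∑ k ∈ Finset.range (N i), M' k (N i) := by
      rw [Nat.card_eq_fintype_card, Fintype.card_subtype]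
      refine (Finset.card_le_card (t := (Finset.range (N i)).biUnion fun k =>
        Finset.univ.filter fun σ => σ ∈ u ∧ 1 / ((N i : ℝ) + 1) < ‖T k i σ‖)
        fun σ hσ => ?_).trans (Finset.card_biUnion_le.trans (Finset.sum_le_sum fun k hk => ?_))
      · obtain ⟨-, h2, k, hk, h3⟩ := Finset.mem_filter.1 hσ
        exact Finset.mem_biUnion.2 ⟨k, Finset.mem_range.2 hk,
          Finset.mem_filter.2 ⟨Finset.mem_univ _, h2, h3⟩⟩
      · have h2 := hi.1 k (Finset.mem_range.1 hk) u hu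
        rw [Nat.card_eq_fintype_card, Fintype.card_subtype] at h2
        exact h2
    exact_mod_cast h1
  · rw [tendsto_zero_iff_norm_tendsto_zero]
    refine squeeze_zero' (Eventually.of_forall fun _ => norm_nonneg _) ?_ hN1
    filter_upwards [hb, hNt.eventually_gt_atTop k] with i hi hk
    by_contra hcon
    exact hi ⟨k, hk, not_le.1 hcon⟩

section
variable (R : ℕ → Type) [∀ i, CommRing (R i)] [∀ i, IsDomain (R i)]
  [∀ i, Fintype (ClassGroup (R i))] (φ : ∀ i, ClassGroup (R i) → ℍ)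

/-- The joint mean of the tests `f`, `g` for the twist `σ`, minus the product of the hyperbolic means. -/
noncomputable def gap (i : ℕ) (f g : ℍ → ℂ) (σ : ClassGroup (R i)) : ℂ :=
  (mean fun a : ClassGroup (R i) => f (φ i a) * g (φ i (a * σ))) - hyp f * hyp g

/-- The mixing conjecture for the twists in the sets `D i`, with the size `ν`. -/
def MixingOn (D : ∀ i, Set (ClassGroup (R i))) (ν : ∀ i, ClassGroup (R i) → ℝ) : Prop :=
  ∀ f g, IsTest f → IsTest g → ∀ ε : ℝ, 0 < ε → ∃ B : ℝ, ∀ᶠ i in atTop, ∀ τ ∈ D i, B < ν i τ →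
    ‖gap R φ i f g τ‖ ≤ ε

/-- Boundedly many classes have bounded size. -/
def Sizes (ν : ∀ i, ClassGroup (R i) → ℝ) : Prop :=
  ∀ B : ℝ, ∃ c : ℕ, ∀ i, Nat.card {τ // ν i τ ≤ B} ≤ c

/-- The sets of twists with all quotients in `D`. -/
def Clusters {G : Type} [Group G] (D : Set G) : Set (Set G) :=
  {u | ∀ σ ∈ u, ∀ σ' ∈ u, σ⁻¹ * σ' ∈ D}

variable {R φ}

theorem hyp_le_of_single (hs : Single R φ) {f : ℍ → ℂ} (hf : IsTest f) : ‖hyp f‖ ≤ 1 :=
  le_of_tendsto (hs f hf).norm (Eventually.of_forall fun _ => mean_le zero_le_one fun _ => hf.2.2.2 _)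

theorem bounded {D : ∀ i, Set (ClassGroup (R i))} {ν : ∀ i, ClassGroup (R i) → ℝ}
    (hs : Single R φ) (hν : Sizes R ν) (hm : MixingOn R φ D ν) {f g : ℍ → ℂ} (hf : IsTest f)
    (hg : IsTest g) {ε : ℝ} (hε : 0 < ε) : ∃ M : ℕ, ∀ᶠ i in atTop, ∀ u ∈ Clusters (D i),
      Nat.card {σ // σ ∈ u ∧ ε < ‖gap R φ i f g σ‖} ≤ M := by
  classical
  set η : ℝ := ε / 2 with hη
  have hη0 : 0 < η := by positivity
  obtain ⟨B, hB⟩ := hm g (fun z => conj (g z)) hg (isTest_conj hg) (η ^ 2 / 4) (by positivity)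
  obtain ⟨c, hc⟩ := hν B
  have hf1 := hyp_le_of_single hs hf
  have hg1 := hyp_le_of_single hs hg
  have e1 : ∀ᶠ i in atTop, ‖(mean fun a => f (φ i a)) - hyp f‖ < η := by
    filter_upwards [(Metric.tendsto_nhds.1 (hs f hf)) η hη0] with i hi
    rwa [dist_eq_norm] at hi
  have e2 : ∀ᶠ i in atTop, ‖(mean fun a => g (φ i a)) - hyp g‖ < η ^ 2 / 8 := by
    filter_upwards [(Metric.tendsto_nhds.1 (hs g hg)) (η ^ 2 / 8) (by positivity)] with i hi
    rwa [dist_eq_norm] at hi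
  refine ⟨⌊2 * 2 ^ 2 * (c : ℝ) / η ^ 2⌋₊, ?_⟩
  filter_upwards [hB, e1, e2] with i hBi h1 h2 u hu
  rw [Nat.card_eq_fintype_card, Fintype.card_subtype]
  refine Nat.le_floor ?_
  refine count (fun a => f (φ i a)) (fun a => g (φ i a) - hyp g) (fun a => hf.2.2.2 _) (K := 2)
    (fun a => ?_) _ (fun τ => ν i τ ≤ B) hη0 (c := c) ?_ (fun σ hσ => ?_) fun σ hσ σ' hσ' hQ => ?_
  · have := norm_sub_le (g (φ i a)) (hyp g)
    have h3 := hg.2.2.2 (φ i a)
    linarith
  · have h3 := hc i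
    rw [Nat.card_eq_fintype_card, Fintype.card_subtype] at h3
    exact h3
  · -- an exceptional twist
    obtain ⟨-, -, h3⟩ := Finset.mem_filter.1 hσ
    have e : gap R φ i f g σ = (mean fun a => f (φ i a) * (g (φ i (a * σ)) - hyp g)) +
        hyp g * ((mean fun a => f (φ i a)) - hyp f) := by
      unfold gap mean
      simp only [mul_sub]
      rw [Finset.sum_sub_distrib, ← Finset.sum_mul]
      ring
    rw [e] at h3
    have h4 := norm_add_le (mean fun a => f (φ i a) * (g (φ i (a * σ)) - hyp g))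
      (hyp g * ((mean fun a => f (φ i a)) - hyp f))
    have h5 : ‖hyp g * ((mean fun a => f (φ i a)) - hyp f)‖ ≤ η := by
      rw [norm_mul]
      exact (mul_le_of_le_one_left (norm_nonneg _) hg1).trans h1.le
    have h6 : ε = η + η := by rw [hη]; ring
    linarith
  · -- a quotient
    obtain ⟨-, hσu, -⟩ := Finset.mem_filter.1 hσ
    obtain ⟨-, hσu', -⟩ := Finset.mem_filter.1 hσ'
    have h3 := hBi _ (hu σ hσu σ' hσu') (not_le.1 hQ)
    set τ := σ⁻¹ * σ' with hτ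
    have e : (mean fun a => (g (φ i a) - hyp g) * conj (g (φ i (a * τ)) - hyp g)) =
        gap R φ i g (fun z => conj (g z)) τ - conj (hyp g) * ((mean fun a => g (φ i a)) - hyp g) -
          hyp g * conj ((mean fun a => g (φ i a)) - hyp g) := by
      have s1 : (mean fun a => conj (g (φ i (a * τ)))) = conj (mean fun a => g (φ i a)) := by
        rw [← mean_shift (fun a => g (φ i a)) τ]
        unfold mean
        rw [map_div₀, map_sum, map_natCast]
      have h0 : (Fintype.card (ClassGroup (R i)) : ℂ) ≠ 0 := by exact_mod_cast Fintype.card_ne_zero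
      have e3 : ∀ a, (g (φ i a) - hyp g) * conj (g (φ i (a * τ)) - hyp g) =
          g (φ i a) * conj (g (φ i (a * τ))) - conj (hyp g) * g (φ i a) -
            hyp g * conj (g (φ i (a * τ))) + hyp g * conj (hyp g) := by
        intro a
        rw [map_sub]
        ring
      rw [map_sub, ← s1]
      unfold gap
      rw [hyp_conj]
      simp only [mean, e3]
      rw [Finset.sum_add_distrib, Finset.sum_sub_distrib, Finset.sum_sub_distrib, ← Finset.mul_sum,
        ← Finset.mul_sum, Finset.sum_const, Finset.card_univ, nsmul_eq_mul]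
      field_simp
      ring
    rw [e]
    have h4 := norm_sub_le (gap R φ i g (fun z => conj (g z)) τ -
      conj (hyp g) * ((mean fun a => g (φ i a)) - hyp g))
      (hyp g * conj ((mean fun a => g (φ i a)) - hyp g))
    have h5 := norm_sub_le (gap R φ i g (fun z => conj (g z)) τ)
      (conj (hyp g) * ((mean fun a => g (φ i a)) - hyp g))
    have h6 : ‖conj (hyp g) * ((mean fun a => g (φ i a)) - hyp g)‖ ≤ η ^ 2 / 8 := by
      rw [norm_mul, Complex.norm_conj]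
      exact (mul_le_of_le_one_left (norm_nonneg _) hg1).trans h2.le
    have h7 : ‖hyp g * conj ((mean fun a => g (φ i a)) - hyp g)‖ ≤ η ^ 2 / 8 := by
      rw [norm_mul, Complex.norm_conj]
      exact (mul_le_of_le_one_left (norm_nonneg _) hg1).trans h2.le
    linarith

theorem repulsion {D : ∀ i, Set (ClassGroup (R i))} {ν : ∀ i, ClassGroup (R i) → ℝ}
    (hs : Single R φ) (hν : Sizes R ν) (hm : MixingOn R φ D ν) {ω : ℕ → ℝ}
    (hω : Tendsto ω atTop atTop) : ∃ E : ∀ i, Set (ClassGroup (R i)),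
      (∀ᶠ i in atTop, ∀ u ∈ Clusters (D i), (Nat.card {σ // σ ∈ u ∧ σ ∈ E i} : ℝ) ≤ ω i) ∧
      ∀ σ : ∀ i, ClassGroup (R i), (∀ᶠ i in atTop, σ i ∉ E i) → Joint R φ σ := by
  obtain ⟨g, hg, hap⟩ := exists_family
  obtain ⟨e, he⟩ := exists_surjective_nat (ℕ × ℕ)
  obtain ⟨E, hE, hb⟩ := diag_count (B := fun i => ClassGroup (R i)) (fun i => Clusters (D i))
    (fun k i σ => gap R φ i (g (e k).1) (g (e k).2) σ)
    (fun k ε hε => bounded hs hν hm (hg _) (hg _) hε) hω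
  refine ⟨E, hE, fun σ hσ => equi_of_family (fun N => ⟨N, hap N⟩) _ fun k _ => ?_⟩
  obtain ⟨l, hl⟩ := he (k 0, k 1)
  have h1 := hb σ hσ l
  refine h1.congr fun i => ?_
  simp only [gap, Fin.prod_univ_two, Matrix.cons_val_zero, Matrix.cons_val_one, hl]

end

/-- the statement -/
def Repulsion : Prop := ∀ (R : ℕ → Type) [∀ i, CommRing (R i)] [∀ i, IsDomain (R i)]
  [∀ i, Fintype (ClassGroup (R i))] (φ : ∀ i, ClassGroup (R i) → ℍ), (∀ i, IsCM (R i) (φ i)) →
  Single R φ → ∀ (ν : ∀ i, ClassGroup (R i) → ℝ) (D : ∀ i, Set (ClassGroup (R i))), Sizes R ν →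
  MixingOn R φ D ν →
  (∀ f g, IsTest f → IsTest g → ∀ ε : ℝ, 0 < ε → ∃ M : ℕ, ∀ᶠ i in atTop, ∀ u ∈ Clusters (D i),
      Nat.card {σ // σ ∈ u ∧ ε < ‖gap R φ i f g σ‖} ≤ M) ∧
  ∀ ω : ℕ → ℝ, Tendsto ω atTop atTop → ∃ E : ∀ i, Set (ClassGroup (R i)),
      (∀ᶠ i in atTop, ∀ u ∈ Clusters (D i), (Nat.card {σ // σ ∈ u ∧ σ ∈ E i} : ℝ) ≤ ω i) ∧
      ∀ σ : ∀ i, ClassGroup (R i), (∀ᶠ i in atTop, σ i ∉ E i) → Joint R φ σ

theorem repulsion' : Repulsion := by
  intro R _ _ _ φ _ hs ν D hν hm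
  exact ⟨fun f g hf hg ε hε => bounded hs hν hm hf hg hε, fun ω hω => repulsion hs hν hm hω⟩

end Pool.Agent.X208.MX
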