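import Pool.Agent.X208.MX.Crit

/-! Exceptional twists repel each other. -/

set_option autoImplicit false

namespace Pool.Agent.X208.MX

open Filter Topology MeasureTheory
open scoped UpperHalfPlane MatrixGroups ComplexConjugate
open Pool.Agent.X208.CM

theorem vdc {G : Type} [CommGroup G] [Fintype G] (F g : G → ℂ) (hF : ∀ a, ‖F a‖ ≤ 1)
    (S : Finset G) : (∑ σ ∈ S, ‖mean fun a => F a * g (a * σ)‖) ^ 2 ≤
      ∑ σ ∈ S, ∑ σ' ∈ S, ‖mean fun a => g a * conj (g (a * (σ⁻¹ * σ')))‖ := by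
  classical
  have hN : (0 : ℝ) < Fintype.card G := by exact_mod_cast Fintype.card_pos
  set m : G → ℂ := fun σ => mean fun a => F a * g (a * σ) with hm
  have hc : ∀ σ, ∃ c : ℂ, ‖c‖ ≤ 1 ∧ c * m σ = ‖m σ‖ := by
    intro σ
    by_cases h : m σ = 0
    · exact ⟨0, by simp, by simp [h]⟩
    · have h0 : (‖m σ‖ : ℂ) ≠ 0 := by exact_mod_cast norm_ne_zero_iff.2 h
      refine ⟨conj (m σ) / ‖m σ‖, ?_, ?_⟩
      · rw [norm_div, Complex.norm_conj, Complex.norm_real, norm_norm]
        exact (div_self (norm_ne_zero_iff.2 h)).le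
      · rw [div_mul_eq_mul_div, Complex.conj_mul', sq, mul_div_assoc, div_self h0, mul_one]
  choose c hc1 hcm using hc
  set u : G → ℂ := fun a => ∑ σ ∈ S, c σ * g (a * σ) with hu
  -- the first step
  have h1 : ((∑ σ ∈ S, ‖m σ‖ : ℝ) : ℂ) = (∑ a, F a * u a) / Fintype.card G := by
    push_cast
    rw [Finset.sum_congr rfl fun σ _ => (hcm σ).symm]
    simp only [hm, mean, hu, Finset.mul_sum]
    rw [Finset.sum_comm, Finset.sum_div]
    refine Finset.sum_congr rfl fun σ _ => ?_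
    rw [mul_div_assoc', Finset.mul_sum]
    congr 1
    refine Finset.sum_congr rfl fun a _ => ?_
    ring
  have h2 : ∑ σ ∈ S, ‖m σ‖ ≤ (∑ a, ‖u a‖) / Fintype.card G := by
    have h3 := congrArg norm h1
    rw [Complex.norm_real, Real.norm_of_nonneg (Finset.sum_nonneg fun _ _ => norm_nonneg _),
      norm_div, Complex.norm_natCast] at h3
    rw [h3]
    refine div_le_div_of_nonneg_right ((norm_sum_le _ _).trans (Finset.sum_le_sum fun a _ => ?_))
      hN.le
    rw [norm_mul]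
    exact mul_le_of_le_one_left (norm_nonneg _) (hF a)
  have h3 : (∑ σ ∈ S, ‖m σ‖) ^ 2 ≤ (∑ a, ‖u a‖ ^ 2) / Fintype.card G := by
    refine (pow_le_pow_left₀ (Finset.sum_nonneg fun _ _ => norm_nonneg _) h2 2).trans ?_
    rw [div_pow, div_le_div_iff₀ (by positivity) hN]
    have h4 := sq_sum_le_card_mul_sum_sq (s := (Finset.univ : Finset G)) (f := fun a => ‖u a‖)
    rw [Finset.card_univ] at h4
    calc (∑ a, ‖u a‖) ^ 2 * Fintype.card G ≤
        (Fintype.card G * ∑ a, ‖u a‖ ^ 2) * Fintype.card G :=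
          mul_le_mul_of_nonneg_right h4 hN.le
      _ = _ := by ring
  refine h3.trans ?_
  -- the second step
  have h4 : (((∑ a, ‖u a‖ ^ 2) / Fintype.card G : ℝ) : ℂ) = ∑ σ ∈ S, ∑ σ' ∈ S,
      (c σ * conj (c σ')) * mean fun a => g (a * σ) * conj (g (a * σ')) := by
    have e : ∀ σ σ' : G, (c σ * conj (c σ')) * (mean fun a => g (a * σ) * conj (g (a * σ'))) =
        (∑ a, (c σ * g (a * σ)) * conj (c σ' * g (a * σ'))) / Fintype.card G := by
      intro σ σ'
      unfold mean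
      rw [mul_div_assoc', Finset.mul_sum]
      congr 1
      refine Finset.sum_congr rfl fun a _ => ?_
      rw [map_mul]
      ring
    rw [Finset.sum_congr rfl fun σ _ => Finset.sum_congr rfl fun σ' _ => e σ σ']
    simp only [← Finset.sum_div]
    push_cast
    congr 1
    have e2 : ∀ a, ((‖u a‖ : ℂ)) ^ 2 = ∑ σ ∈ S, ∑ σ' ∈ S,
        (c σ * g (a * σ)) * conj (c σ' * g (a * σ')) := by
      intro a
      rw [← Complex.mul_conj']
      simp only [hu]
      rw [map_sum, Finset.sum_mul_sum]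
    rw [Finset.sum_congr rfl fun a _ => e2 a, Finset.sum_comm]
    refine Finset.sum_congr rfl fun σ _ => ?_
    rw [Finset.sum_comm]
  have h5 := congrArg norm h4
  rw [Complex.norm_real, Real.norm_of_nonneg (by positivity)] at h5
  rw [h5]
  refine (norm_sum_le _ _).trans (Finset.sum_le_sum fun σ _ => (norm_sum_le _ _).trans
    (Finset.sum_le_sum fun σ' _ => ?_))
  have h6 := mean_shift (fun a => g a * conj (g (a * (σ⁻¹ * σ')))) σ
  rw [← h6]
  simp only [mul_assoc, mul_inv_cancel_left]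
  rw [← mul_assoc, norm_mul, norm_mul, Complex.norm_conj]
  exact mul_le_of_le_one_left (norm_nonneg _)
    (mul_le_one₀ (hc1 σ) (norm_nonneg _) (hc1 σ'))

/-- counting the exceptional twists -/
theorem count {G : Type} [CommGroup G] [Fintype G] (F g : G → ℂ) (hF : ∀ a, ‖F a‖ ≤ 1)
    {K : ℝ} (hg : ∀ a, ‖g a‖ ≤ K) (S : Finset G) (Q : G → Prop) [DecidablePred Q] {η : ℝ}
    (hη : 0 < η) {c : ℕ} (hQ : (Finset.univ.filter Q).card ≤ c)
    (hS : ∀ σ ∈ S, η < ‖mean fun a => F a * g (a * σ)‖)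
    (hA : ∀ σ ∈ S, ∀ σ' ∈ S, ¬ Q (σ⁻¹ * σ') →
      ‖mean fun a => g a * conj (g (a * (σ⁻¹ * σ')))‖ ≤ η ^ 2 / 2) :
    (S.card : ℝ) ≤ 2 * K ^ 2 * c / η ^ 2 := by
  classical
  have hK : 0 ≤ K := (norm_nonneg _).trans (hg 1)
  have h1 := vdc F g hF S
  have h2 : (S.card : ℝ) * η ≤ ∑ σ ∈ S, ‖mean fun a => F a * g (a * σ)‖ := by
    rw [← nsmul_eq_mul, ← Finset.sum_const]
    exact Finset.sum_le_sum fun σ hσ => (hS σ hσ).le
  have h3 : ∑ σ ∈ S, ∑ σ' ∈ S, ‖mean fun a => g a * conj (g (a * (σ⁻¹ * σ')))‖ ≤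
      ∑ σ ∈ S, ((S.card : ℝ) * (η ^ 2 / 2) + c * K ^ 2) := by
    refine Finset.sum_le_sum fun σ hσ => ?_
    have h4 : ∀ σ' ∈ S, ‖mean fun a => g a * conj (g (a * (σ⁻¹ * σ')))‖ ≤
        η ^ 2 / 2 + if Q (σ⁻¹ * σ') then K ^ 2 else 0 := by
      intro σ' hσ'
      split_ifs with hq
      · have h5 : ‖mean fun a => g a * conj (g (a * (σ⁻¹ * σ')))‖ ≤ K ^ 2 := by
          refine mean_le (by positivity) fun a => ?_
          rw [norm_mul, Complex.norm_conj, sq]
          exact mul_le_mul (hg _) (hg _) (norm_nonneg _) hK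
        have : 0 ≤ η ^ 2 / 2 := by positivity
        linarith
      · rw [add_zero]
        exact hA σ hσ σ' hσ' hq
    refine (Finset.sum_le_sum h4).trans ?_
    rw [Finset.sum_add_distrib, Finset.sum_const, nsmul_eq_mul, ← Finset.sum_filter,
      Finset.sum_const, nsmul_eq_mul]
    have h6 : ((S.filter fun σ' => Q (σ⁻¹ * σ')).card : ℝ) ≤ c := by
      have h7 : (S.filter fun σ' => Q (σ⁻¹ * σ')).card ≤ (Finset.univ.filter Q).card := by
        refine Finset.card_le_card_of_injOn (fun σ' => σ⁻¹ * σ') (fun σ' h => ?_)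
          fun a _ b _ hab => mul_left_cancel hab
        have h8 := (Finset.mem_filter.1 (Finset.mem_coe.1 h)).2
        exact Finset.mem_coe.2 (Finset.mem_filter.2 ⟨Finset.mem_univ _, h8⟩)
      exact_mod_cast h7.trans hQ
    have := mul_le_mul_of_nonneg_right h6 (by positivity : (0 : ℝ) ≤ K ^ 2)
    linarith
  rw [Finset.sum_const, nsmul_eq_mul] at h3
  have h4 : ((S.card : ℝ) * η) ^ 2 ≤ S.card * ((S.card : ℝ) * (η ^ 2 / 2) + c * K ^ 2) :=
    (pow_le_pow_left₀ (by positivity) h2 2).trans (h1.trans h3)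
  rcases Nat.eq_zero_or_pos S.card with h0 | h0
  · rw [h0, Nat.cast_zero]
    positivity
  · have h0' : (0 : ℝ) < S.card := by exact_mod_cast h0
    have h5 : (S.card : ℝ) * (S.card * η ^ 2) ≤ S.card * ((S.card : ℝ) * (η ^ 2 / 2) + c * K ^ 2) := by
      calc _ = ((S.card : ℝ) * η) ^ 2 := by ring
        _ ≤ _ := h4
    have h6 := le_of_mul_le_mul_left h5 h0'
    rw [le_div_iff₀ (by positivity)]
    nlinarith

end Pool.Agent.X208.MX
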